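import Pool.Agent.Q175.PH.Lap

/-! Integrability of `(1+x₀²)^{1/2} exp (-(1+x₀²)|x'|²)` and of the exponential of the solution. -/

set_option autoImplicit false

open MeasureTheory Filter Topology Set
open scoped ContDiff

namespace Pool.Agent.Q175.PH

lemma gauss_int (n : ℕ) {A : ℝ} (hA : 0 < A) :
    Integrable (fun y : Fin n → ℝ => Real.exp (-A * ∑ i, y i ^ 2)) ∧
      ∫ y : Fin n → ℝ, Real.exp (-A * ∑ i, y i ^ 2) = (√(Real.pi / A)) ^ n := by
  have e : (fun y : Fin n → ℝ => Real.exp (-A * ∑ i, y i ^ 2)) =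
      fun y => ∏ i : Fin n, (fun t => Real.exp (-A * t ^ 2)) (y i) := by
    funext y
    rw [← Real.exp_sum, Finset.mul_sum]
  rw [e]
  refine ⟨Integrable.fintype_prod (f := fun _ t => Real.exp (-A * t ^ 2))
    fun i => integrable_exp_neg_mul_sq hA, ?_⟩
  have h := integral_fintype_prod_volume_eq_pow (ι := Fin n) (fun t : ℝ => Real.exp (-A * t ^ 2))
  rw [integral_gaussian, Fintype.card_fin] at h
  exact h

lemma int_h (n : ℕ) (hn : 5 ≤ n) :
    Integrable (fun p : ℝ × (Fin n → ℝ) =>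
      (1 + p.1 ^ 2) * Real.exp (-(1 + p.1 ^ 2) * ∑ i, p.2 i ^ 2)) := by
  have hcont : Continuous (fun p : ℝ × (Fin n → ℝ) =>
      (1 + p.1 ^ 2) * Real.exp (-(1 + p.1 ^ 2) * ∑ i, p.2 i ^ 2)) := by fun_prop
  have hpos : ∀ t : ℝ, 0 < 1 + t ^ 2 := fun t => by positivity
  refine (integrable_prod_iff hcont.aestronglyMeasurable).mpr ⟨?_, ?_⟩
  · refine Eventually.of_forall fun t => ?_
    exact ((gauss_int n (hpos t)).1).const_mul (1 + t ^ 2)
  · have e : (fun t : ℝ => ∫ y : Fin n → ℝ, ‖(1 + t ^ 2) * Real.exp (-(1 + t ^ 2) * ∑ i, y i ^ 2)‖) =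
        fun t => (1 + t ^ 2) * (√(Real.pi / (1 + t ^ 2))) ^ n := by
      funext t
      have : (fun y : Fin n → ℝ => ‖(1 + t ^ 2) * Real.exp (-(1 + t ^ 2) * ∑ i, y i ^ 2)‖) =
          fun y => (1 + t ^ 2) * Real.exp (-(1 + t ^ 2) * ∑ i, y i ^ 2) := by
        funext y
        rw [Real.norm_of_nonneg (by positivity)]
      rw [this, integral_const_mul, (gauss_int n (hpos t)).2]
    change Integrable (fun t : ℝ => ∫ y : Fin n → ℝ, ‖(1 + t ^ 2) * Real.exp (-(1 + t ^ 2) * ∑ i, y i ^ 2)‖)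
    rw [e]
    have hb : Integrable (fun t : ℝ => (√Real.pi) ^ n * (1 + t ^ 2)⁻¹) :=
      integrable_inv_one_add_sq.const_mul _
    refine hb.mono' (by fun_prop) (Eventually.of_forall fun t => ?_)
    have hA := hpos t
    have h1 : 1 ≤ 1 + t ^ 2 := by nlinarith [sq_nonneg t]
    have hs1 : 1 ≤ √(1 + t ^ 2) := by
      rw [show (1:ℝ) = √1 by simp]
      exact Real.sqrt_le_sqrt (by simpa using h1)
    rw [Real.norm_of_nonneg (by positivity), Real.sqrt_div Real.pi_pos.le, div_pow, mul_div_assoc',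
      div_le_iff₀ (by positivity)]
    have h4 : (1 + t ^ 2) ^ 2 ≤ √(1 + t ^ 2) ^ n := by
      calc (1 + t ^ 2) ^ 2 = √(1 + t ^ 2) ^ 4 := by
            rw [show (4:ℕ) = 2 * 2 by norm_num, pow_mul, Real.sq_sqrt hA.le]
        _ ≤ √(1 + t ^ 2) ^ n := pow_le_pow_right₀ hs1 (by omega)
    have h5 : (0:ℝ) ≤ √Real.pi ^ n := by positivity
    calc (1 + t ^ 2) * √Real.pi ^ n = √Real.pi ^ n * (1 + t ^ 2)⁻¹ * (1 + t ^ 2) ^ 2 := by
          field_simp
      _ ≤ √Real.pi ^ n * (1 + t ^ 2)⁻¹ * √(1 + t ^ 2) ^ n := by gcongr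

/-- the same on `Fin N → ℝ` -/
lemma int_fin (N : ℕ) (hN : 6 ≤ N) (i₀ : Fin N) (h0 : (i₀ : ℕ) = 0) :
    Integrable (fun x : Fin N → ℝ =>
      (1 + x i₀ ^ 2) * Real.exp (-(1 + x i₀ ^ 2) * (∑ i, x i ^ 2 - x i₀ ^ 2))) := by
  obtain ⟨n, rfl⟩ : ∃ n, N = n + 1 := ⟨N - 1, by omega⟩
  obtain rfl : i₀ = 0 := Fin.ext h0
  have h := (volume_preserving_piFinSuccAbove (fun _ : Fin (n + 1) => ℝ) 0).integrable_comp_of_integrable
    (int_h n (by omega))
  refine h.congr (Eventually.of_forall fun x => ?_)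
  have e : ∑ i, x i ^ 2 - x 0 ^ 2 = ∑ i : Fin n, x i.succ ^ 2 := by
    rw [Fin.sum_univ_succ]; ring
  change _ = (1 + x 0 ^ 2) * Real.exp (-(1 + x 0 ^ 2) * (∑ i, x i ^ 2 - x 0 ^ 2))
  rw [e]
  rfl

open Helper304Lap

lemma int_E {m : ℕ} (hm : 3 ≤ m) :
    Integrable (fun x : E (2 * m) => ph hm x * Real.exp (-(ph hm x) * ps hm x)) := by
  rw [← (PiLp.volume_preserving_toLp (Fin (2 * m))).integrable_comp_emb
    (MeasurableEquiv.toLp 2 _).measurableEmbedding]
  refine (int_fin (2 * m) (by omega) (i0 hm) rfl).congr (Eventually.of_forall fun x => ?_)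
  simp only [Function.comp_def, ph, ps, EuclideanSpace.norm_eq, Real.norm_eq_abs, sq_abs]
  rw [Real.sq_sqrt (by positivity)]

/-- the solution -/
noncomputable def uu {m : ℕ} (hm : 3 ≤ m) (x : E (2 * m)) : ℝ := ww hm x + vv (1 / (2 * m)) x

lemma uu_smooth {m : ℕ} (hm : 3 ≤ m) : ContDiff ℝ ∞ (uu hm) := (ww_smooth hm).add (vv_smooth _)

lemma ps_nonneg {m : ℕ} (hm : 3 ≤ m) (x : E (2 * m)) : 0 ≤ ps hm x := by
  unfold ps
  rw [EuclideanSpace.norm_eq, Real.sq_sqrt (by positivity)]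
  have := Finset.single_le_sum (f := fun i => ‖x i‖ ^ 2) (fun i _ => by positivity) (Finset.mem_univ (i0 hm))
  simp only [Real.norm_eq_abs, sq_abs] at this ⊢
  linarith

lemma exp_int {m : ℕ} (hm : 3 ≤ m) : Integrable (fun x : E (2 * m) => Real.exp (2 * m * uu hm x)) := by
  refine (int_E hm).mono' ?_ (Eventually.of_forall fun x => ?_)
  · exact (Real.continuous_exp.comp (continuous_const.mul (uu_smooth hm).continuous)).aestronglyMeasurable
  rw [Real.norm_of_nonneg (Real.exp_pos _).le]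
  have hm' : (3:ℝ) ≤ m := by exact_mod_cast hm
  have h1 := ps_nonneg hm x
  have h2 : 1 ≤ ph hm x := by unfold ph; nlinarith [sq_nonneg (x (i0 hm))]
  have e : 2 * m * uu hm x = -(2 * m * (ph hm x * ps hm x)) + U (‖x‖ ^ 2) := by
    unfold uu ww vv
    field_simp
  have hn : 1 + ‖x‖ ^ 2 = ph hm x + ps hm x := by unfold ph ps; ring
  have h3 : Real.exp (U (‖x‖ ^ 2)) ≤ ph hm x * Real.exp (ph hm x * ps hm x) := by
    calc Real.exp (U (‖x‖ ^ 2)) ≤ Real.exp (Real.log (1 + ‖x‖ ^ 2)) := Real.exp_le_exp.mpr (U_le (by positivity))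
      _ = 1 + ‖x‖ ^ 2 := Real.exp_log (by positivity)
      _ = ph hm x + ps hm x := hn
      _ ≤ ph hm x * (1 + ph hm x * ps hm x) := by nlinarith [mul_nonneg h1 (by linarith : 0 ≤ ph hm x)]
      _ ≤ ph hm x * Real.exp (ph hm x * ps hm x) := by
          have := Real.add_one_le_exp (ph hm x * ps hm x)
          gcongr
          linarith
  have h4 : 0 ≤ ph hm x * ps hm x := mul_nonneg (by linarith) h1
  rw [e, Real.exp_add]
  calc Real.exp (-(2 * m * (ph hm x * ps hm x))) * Real.exp (U (‖x‖ ^ 2))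
      ≤ Real.exp (-(2 * m * (ph hm x * ps hm x))) * (ph hm x * Real.exp (ph hm x * ps hm x)) := by gcongr
    _ = ph hm x * Real.exp (-(2 * m * (ph hm x * ps hm x)) + ph hm x * ps hm x) := by
        rw [Real.exp_add]; ring
    _ ≤ ph hm x * Real.exp (-(ph hm x) * ps hm x) := by
        gcongr
        nlinarith

/-- the equation, tested -/
lemma eqn {m : ℕ} (hm : 3 ≤ m) {φ : E (2 * m) → ℝ} (hφ : ContDiff ℝ ∞ φ) (hc : HasCompactSupport φ) :
    ∫ x, uu hm x * ((-1) ^ m * LL m φ x) = ∫ x, ((-1) ^ m * LL m (vv (1 / (2 * m))) x) * φ x := by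
  have h1 := green_iter m (uu_smooth hm) hφ hc
  have h2 : LL m (uu hm) = fun x => LL m (vv (1 / (2 * m))) x := by
    have := LL_add m (ww_smooth hm) (vv_smooth (m := m) (1 / (2 * m)))
    rw [LL_ww] at this
    simp only [zero_add] at this
    exact this
  rw [h2] at h1
  have e1 : (fun x => uu hm x * ((-1) ^ m * LL m φ x)) = fun x => (-1) ^ m * (uu hm x * LL m φ x) := by
    funext x; ring
  have e2 : (fun x => ((-1) ^ m * LL m (vv (1 / (2 * m))) x) * φ x) =
      fun x => (-1) ^ m * (LL m (vv (1 / (2 * m))) x * φ x) := by funext x; ring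
  rw [e1, e2, integral_const_mul, integral_const_mul, h1]

/-- the coefficient -/
noncomputable def VV {m : ℕ} (hm : 3 ≤ m) (x : E (2 * m)) : ℝ :=
  (-1) ^ m * LL m (vv (1 / (2 * m))) x * Real.exp (-(2 * m * uu hm x))

lemma VV_smooth {m : ℕ} (hm : 3 ≤ m) : ContDiff ℝ ∞ (VV hm) := by
  unfold VV
  exact (contDiff_const.mul (LL_smooth (vv_smooth _) m)).mul
    (Real.contDiff_exp.comp (contDiff_const.mul (uu_smooth hm)).neg)

lemma VV_supp {m : ℕ} (hm : 3 ≤ m) : HasCompactSupport (VV hm) := by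
  apply HasCompactSupport.intro (isCompact_closedBall 0 1)
  intro x hx
  rw [mem_closedBall_zero_iff, not_le] at hx
  unfold VV
  rw [LL_log_zero (by omega) _ hx]
  ring

lemma VV_eq {m : ℕ} (hm : 3 ≤ m) (x : E (2 * m)) :
    VV hm x * Real.exp (2 * m * uu hm x) = (-1) ^ m * LL m (vv (1 / (2 * m))) x := by
  unfold VV
  rw [mul_assoc, ← Real.exp_add]
  simp

lemma unbounded {m : ℕ} (hm : 3 ≤ m) (M : ℝ) : 0 < volume {x : E (2 * m) | M < uu hm x} := by
  have ho : IsOpen {x : E (2 * m) | M < uu hm x} := isOpen_lt continuous_const (uu_smooth hm).continuous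
  refine ho.measure_pos volume ?_
  have hm' : (3:ℝ) ≤ m := by exact_mod_cast hm
  set t : ℝ := Real.exp (m * (|M| + 1)) with ht
  have ht1 : 1 ≤ t := Real.one_le_exp (by positivity)
  refine ⟨EuclideanSpace.single (i0 hm) t, ?_⟩
  change M < uu hm _
  have hn : ‖(EuclideanSpace.single (i0 hm) t : E (2 * m))‖ ^ 2 = t ^ 2 := by
    rw [PiLp.norm_single, Real.norm_eq_abs, sq_abs]
  have h0 : ps hm (EuclideanSpace.single (i0 hm) t) = 0 := by
    unfold ps
    rw [hn]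
    simp
  have : uu hm (EuclideanSpace.single (i0 hm) t) = |M| + 1 := by
    unfold uu ww vv
    rw [h0, hn, U_eq (by nlinarith), Real.log_pow, ht, Real.log_exp]
    push_cast
    field_simp
    ring
  rw [this]
  linarith [le_abs_self M]

end Pool.Agent.Q175.PH
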