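import Pool.Agent.H314.CS.Dist
import Pool.Agent.Helper304.LapLocal

/-! Iterated Laplacians: a polyharmonic polynomial and the logarithm. -/

set_option autoImplicit false

open MeasureTheory InnerProductSpace Filter Topology Set Laplacian
open scoped ContDiff

namespace Pool.Agent.Q175.PH

section gen
variable {E : Type*} [NormedAddCommGroup E] [InnerProductSpace ℝ E] [FiniteDimensional ℝ E]
  [MeasurableSpace E] [BorelSpace E]

omit [MeasurableSpace E] [BorelSpace E] in
lemma lap_smooth {w : E → ℝ} (hw : ContDiff ℝ ∞ w) : ContDiff ℝ ∞ (Δ w) := by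
  have h2 : ContDiff ℝ 2 w := hw.of_le (WithTop.coe_le_coe.mpr le_top)
  have : Δ w = fun x => ∑ i, fderiv ℝ (fun y => fderiv ℝ w y (stdOrthonormalBasis ℝ E i)) x
      (stdOrthonormalBasis ℝ E i) := by
    funext x
    rw [laplacian_eq_iteratedFDeriv_stdOrthonormalBasis w]
    refine Finset.sum_congr rfl fun i _ => ?_
    rw [iteratedFDeriv_two_apply]
    have h1 : DifferentiableAt ℝ (fderiv ℝ w) x :=
      (h2.fderiv_right (m := 1) (by norm_num)).differentiable (by norm_num) x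
    rw [fderiv_clm_apply h1 (differentiableAt_const _)]
    simp
  rw [this]
  refine ContDiff.sum fun i _ => ?_
  have h1 : ContDiff ℝ ∞ (fun y => fderiv ℝ w y (stdOrthonormalBasis ℝ E i)) :=
    (hw.fderiv_right (m := ∞) (by simp)).clm_apply contDiff_const
  exact (h1.fderiv_right (m := ∞) (by simp)).clm_apply contDiff_const

/-- iterated Laplacian -/
noncomputable def LL (k : ℕ) (f : E → ℝ) : E → ℝ := (fun f : E → ℝ => Δ f)^[k] f

omit [MeasurableSpace E] [BorelSpace E] in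
lemma LL_succ (k : ℕ) (f : E → ℝ) : LL (k + 1) f = Δ (LL k f) := by
  unfold LL; rw [Function.iterate_succ_apply']

omit [MeasurableSpace E] [BorelSpace E] in
lemma LL_succ' (k : ℕ) (f : E → ℝ) : LL (k + 1) f = LL k (Δ f) := by
  unfold LL; rw [Function.iterate_succ_apply]

omit [MeasurableSpace E] [BorelSpace E] in
lemma LL_smooth {w : E → ℝ} (hw : ContDiff ℝ ∞ w) (k : ℕ) : ContDiff ℝ ∞ (LL k w) := by
  induction k with
  | zero => exact hw
  | succ k ih => rw [LL_succ]; exact lap_smooth ih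

omit [MeasurableSpace E] [BorelSpace E] in
lemma lap_supp {f : E → ℝ} (hc : HasCompactSupport f) : HasCompactSupport (Δ f) := by
  apply HasCompactSupport.intro hc.isCompact
  intro x hx
  have h1 : f =ᶠ[𝓝 x] fun _ => 0 := notMem_tsupport_iff_eventuallyEq.mp hx
  rw [(laplacian_congr_nhds h1).self_of_nhds]
  rw [H314.CS.LL.laplacian_eq_of_hasFDerivAt (f' := fun _ => 0) (f'' := 0) (stdOrthonormalBasis ℝ E)
    (Eventually.of_forall fun y => hasFDerivAt_const _ _) (hasFDerivAt_const _ _)]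
  simp

omit [MeasurableSpace E] [BorelSpace E] in
lemma LL_supp {f : E → ℝ} (hc : HasCompactSupport f) (k : ℕ) : HasCompactSupport (LL k f) := by
  induction k with
  | zero => exact hc
  | succ k ih => rw [LL_succ]; exact lap_supp ih

/-- Green's formula for the iterated Laplacian. -/
lemma green_iter (k : ℕ) {u φ : E → ℝ} (hu : ContDiff ℝ ∞ u) (hφ : ContDiff ℝ ∞ φ)
    (hc : HasCompactSupport φ) : ∫ x, u x * LL k φ x = ∫ x, LL k u x * φ x := by
  induction k generalizing u with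
  | zero => rfl
  | succ k ih =>
    rw [LL_succ, LL_succ', H314.CS.LL.green (hu.of_le (WithTop.coe_le_coe.mpr le_top))
      ((LL_smooth hφ k).of_le (WithTop.coe_le_coe.mpr le_top)) (LL_supp hc k)]
    exact ih (lap_smooth hu)

omit [MeasurableSpace E] [BorelSpace E] in
lemma LL_add (k : ℕ) {u v : E → ℝ} (hu : ContDiff ℝ ∞ u) (hv : ContDiff ℝ ∞ v) :
    LL k (fun x => u x + v x) = fun x => LL k u x + LL k v x := by
  induction k with
  | zero => rfl
  | succ k ih =>
    rw [LL_succ, LL_succ, LL_succ, ih]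
    funext x
    exact ((LL_smooth hu k).contDiffAt.of_le (WithTop.coe_le_coe.mpr le_top)).laplacian_add
      ((LL_smooth hv k).contDiffAt.of_le (WithTop.coe_le_coe.mpr le_top))

omit [MeasurableSpace E] [BorelSpace E] in
lemma lap_const (c : ℝ) : Δ (fun _ : E => c) = fun _ => 0 := by
  funext x
  rw [H314.CS.LL.laplacian_eq_of_hasFDerivAt (f' := fun _ => 0) (f'' := 0) (stdOrthonormalBasis ℝ E)
    (Eventually.of_forall fun y => hasFDerivAt_const _ _) (hasFDerivAt_const _ _)]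
  simp

omit [MeasurableSpace E] [BorelSpace E] in
lemma LL_zero (k : ℕ) : LL k (fun _ : E => (0:ℝ)) = fun _ => 0 := by
  induction k with
  | zero => rfl
  | succ k ih => rw [LL_succ, ih, lap_const]

omit [MeasurableSpace E] [BorelSpace E] in
lemma LL_congr (k : ℕ) {f g : E → ℝ} {x : E} (h : f =ᶠ[𝓝 x] g) : LL k f =ᶠ[𝓝 x] LL k g := by
  induction k with
  | zero => exact h
  | succ k ih =>
    rw [LL_succ, LL_succ]
    filter_upwards [ih.eventuallyEq_nhds] with y hy
    exact (laplacian_congr_nhds hy).self_of_nhds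

end gen

section poly
variable {m : ℕ} (hm : 3 ≤ m)

open Helper304Lap

/-- the first index -/
def i0 : Fin (2 * m) := ⟨0, by omega⟩

noncomputable def ph (x : E (2 * m)) : ℝ := 1 + x (i0 hm) ^ 2
noncomputable def ps (x : E (2 * m)) : ℝ := ‖x‖ ^ 2 - x (i0 hm) ^ 2

lemma ph_smooth : ContDiff ℝ ∞ (ph hm) := by unfold ph; fun_prop

lemma ps_smooth : ContDiff ℝ ∞ (ps hm) := by
  have h1 : ContDiff ℝ ∞ (fun x : E (2 * m) => ‖x‖ ^ 2) := contDiff_norm_sq ℝ
  unfold ps
  fun_prop

lemma pd_coord_sq (i : Fin (2 * m)) (x : E (2 * m)) :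
    pd i (fun x : E (2 * m) => x (i0 hm) ^ 2) x = 2 * x (i0 hm) * (if i = i0 hm then 1 else 0) := by
  have h : HasFDerivAt (fun x : E (2 * m) => x (i0 hm)) (EuclideanSpace.proj (i0 hm) : E (2 * m) →L[ℝ] ℝ) x :=
    (EuclideanSpace.proj (i0 hm) : E (2 * m) →L[ℝ] ℝ).hasFDerivAt
  unfold pd
  rw [(h.pow 2).fderiv]
  simp only [bv]
  by_cases hi : i = i0 hm
  · simp [hi]
  · have : i0 hm ≠ i := fun h => hi h.symm
    simp [hi, this]

lemma pd_normsq (i : Fin (2 * m)) (x : E (2 * m)) :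
    pd i (fun x : E (2 * m) => ‖x‖ ^ 2) x = 2 * x i := by
  unfold pd
  rw [(hasStrictFDerivAt_norm_sq x).hasFDerivAt.fderiv]
  simp [bv, EuclideanSpace.inner_single_right]

lemma pd_ph (i : Fin (2 * m)) (x : E (2 * m)) :
    pd i (ph hm) x = 2 * x (i0 hm) * (if i = i0 hm then 1 else 0) := by
  rw [← pd_coord_sq]
  unfold pd ph
  rw [fderiv_const_add]

lemma pd_ps (i : Fin (2 * m)) (x : E (2 * m)) :
    pd i (ps hm) x = 2 * x i - 2 * x (i0 hm) * (if i = i0 hm then 1 else 0) := by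
  rw [← pd_coord_sq, ← pd_normsq]
  apply pd_sub
  · exact (contDiff_norm_sq ℝ (n := 1)).differentiable (by norm_num) x
  · fun_prop

lemma sum_cross (x : E (2 * m)) : ∑ i, pd i (ph hm) x * pd i (ps hm) x = 0 := by
  apply Finset.sum_eq_zero
  intro i _
  rw [pd_ph, pd_ps]
  by_cases hi : i = i0 hm
  · simp [hi]
  · simp [hi]

lemma lapx (x : E (2 * m)) : lap (fun x : E (2 * m) => x (i0 hm) ^ 2) x = 2 := by
  unfold lap
  have h1 : ∀ i, pd i (fun x : E (2 * m) => x (i0 hm) ^ 2) = fun x => (2 * (if i = i0 hm then (1:ℝ) else 0)) * x (i0 hm) := by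
    intro i; funext x; rw [pd_coord_sq]; ring
  have h2 : ∀ i, pd i (fun x : E (2 * m) => x (i0 hm)) x = if i = i0 hm then 1 else 0 := by
    intro i
    have h : HasFDerivAt (fun x : E (2 * m) => x (i0 hm)) (EuclideanSpace.proj (i0 hm) : E (2 * m) →L[ℝ] ℝ) x :=
      (EuclideanSpace.proj (i0 hm) : E (2 * m) →L[ℝ] ℝ).hasFDerivAt
    unfold pd
    rw [h.fderiv]
    simp only [bv]
    by_cases hi : i = i0 hm
    · simp [hi]
    · have : i0 hm ≠ i := fun h => hi h.symm
      simp [hi, this]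
  have h3 : ∀ i, pd i (pd i (fun x : E (2 * m) => x (i0 hm) ^ 2)) x = if i = i0 hm then 2 else 0 := by
    intro i
    rw [h1, pd_const_mul i _ (by fun_prop), h2]
    split_ifs <;> ring
  simp only [h3]
  simp

lemma lapn (x : E (2 * m)) : lap (fun x : E (2 * m) => ‖x‖ ^ 2) x = 2 * (2 * m : ℕ) := by
  rw [← lap_eq (contDiff_norm_sq ℝ)]
  have h := H314.CS.LL.laplacian_comp_normSq (E := E (2 * m)) (x := x) (U := fun s => s) (U' := fun _ => 1) (U'' := fun _ => 0)
    (Eventually.of_forall fun s => hasDerivAt_id s) (hasDerivAt_const _ _)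
  rw [h, finrank_euclideanSpace_fin]
  ring

lemma lap_add' {φ ψ : E (2 * m) → ℝ} (h : ContDiff ℝ ∞ φ) (h' : ContDiff ℝ ∞ ψ) (x : E (2 * m)) :
    lap (fun x => φ x + ψ x) x = lap φ x + lap ψ x := by
  rw [← lap_eq h, ← lap_eq h', ← lap_eq (h.add h')]
  exact (h.contDiffAt.of_le (WithTop.coe_le_coe.mpr le_top)).laplacian_add
    (h'.contDiffAt.of_le (WithTop.coe_le_coe.mpr le_top))

lemma lap_cmul {φ : E (2 * m) → ℝ} (h : ContDiff ℝ ∞ φ) (c : ℝ) (x : E (2 * m)) :
    lap (fun x => c * φ x) x = c * lap φ x := by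
  have := lap_mul (N := 2 * m) (contDiff_const (c := c)) h x
  rw [this]
  have h1 : ∀ i, pd i (fun _ : E (2 * m) => c) x = 0 := by intro i; unfold pd; simp
  have h2 : lap (fun _ : E (2 * m) => c) x = 0 := by
    unfold lap
    apply Finset.sum_eq_zero
    intro i _
    have : pd i (fun _ : E (2 * m) => c) = fun _ => 0 := by funext y; unfold pd; simp
    rw [this]; unfold pd; simp
  simp [h1, h2]

lemma lap_ph (x : E (2 * m)) : lap (ph hm) x = 2 := by
  have : lap (fun x => (1:ℝ) + x (i0 hm) ^ 2) x = lap (fun _ : E (2 * m) => (1:ℝ)) x + lap (fun x => x (i0 hm) ^ 2) x :=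
    lap_add' contDiff_const (by fun_prop) x
  change lap (fun x => (1:ℝ) + x (i0 hm) ^ 2) x = 2
  rw [this, lapx, ← lap_eq contDiff_const, lap_const]
  ring

lemma lap_ps (x : E (2 * m)) : lap (ps hm) x = 2 * (2 * m : ℕ) - 2 := by
  have h1 : ContDiff ℝ ∞ (fun x : E (2 * m) => ‖x‖ ^ 2) := contDiff_norm_sq ℝ
  have h2 : ContDiff ℝ ∞ (fun x : E (2 * m) => (-1) * x (i0 hm) ^ 2) := by fun_prop
  have : lap (fun x => ‖x‖ ^ 2 + (-1) * x (i0 hm) ^ 2) x = _ := lap_add' h1 h2 x
  have e : ps hm = fun x => ‖x‖ ^ 2 + (-1) * x (i0 hm) ^ 2 := by funext x; unfold ps; ring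
  rw [e, this, lap_cmul (by fun_prop), lapx, lapn]
  ring

/-- the polynomial -/
noncomputable def ww (x : E (2 * m)) : ℝ := -1 * (ph hm x * ps hm x)

lemma ww_smooth : ContDiff ℝ ∞ (ww hm) := contDiff_const.mul ((ph_smooth hm).mul (ps_smooth hm))

lemma lap1 : Δ (ww hm) = fun x => -1 * ((2 * (2 * m : ℕ) - 2) * ph hm x + 2 * ps hm x) := by
  funext x
  rw [lap_eq (ww_smooth hm)]
  unfold ww
  rw [lap_cmul ((ph_smooth hm).mul (ps_smooth hm)), lap_mul (ph_smooth hm) (ps_smooth hm), sum_cross, lap_ph, lap_ps]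
  ring

lemma lap2 : Δ (fun x => -1 * ((2 * (2 * m : ℕ) - 2) * ph hm x + 2 * ps hm x)) =
    fun _ => (-1 : ℝ) * ((2 * (2 * m : ℕ) - 2) * 2 + 2 * (2 * (2 * m : ℕ) - 2)) := by
  funext x
  have h1 : ContDiff ℝ ∞ (fun x => (2 * ((2 * m : ℕ) : ℝ) - 2) * ph hm x) := contDiff_const.mul (ph_smooth hm)
  have h2 : ContDiff ℝ ∞ (fun x => 2 * ps hm x) := contDiff_const.mul (ps_smooth hm)
  rw [lap_eq (contDiff_const.mul (h1.add h2)), lap_cmul (h1.add h2), lap_add' h1 h2, lap_cmul (ph_smooth hm),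
    lap_cmul (ps_smooth hm), lap_ph, lap_ps]

lemma LL_ww : LL m (ww hm) = fun _ => 0 := by
  obtain ⟨k, rfl⟩ : ∃ k, m = k + 3 := ⟨m - 3, by omega⟩
  rw [LL_succ', LL_succ', LL_succ', lap1, lap2, lap_const, LL_zero]

end poly

section logp

/-- a smooth function equal to `log s` for `s ≥ 1` -/
noncomputable def U (s : ℝ) : ℝ := Real.smoothTransition (2 * s - 1) * Real.log s

lemma U_eq {s : ℝ} (hs : 1 ≤ s) : U s = Real.log s := by
  unfold U
  rw [Real.smoothTransition.one_of_one_le (by linarith), one_mul]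

lemma U_smooth : ContDiff ℝ ∞ U := by
  rw [contDiff_iff_contDiffAt]
  intro s
  rcases lt_or_ge s (1/2) with h | h
  · have h1 : U =ᶠ[𝓝 s] fun _ => 0 := by
      filter_upwards [Iio_mem_nhds h] with t ht
      unfold U
      have ht' : t < 1/2 := ht
      rw [Real.smoothTransition.zero_of_nonpos (by linarith), zero_mul]
    exact contDiffAt_const.congr_of_eventuallyEq h1
  · have hs : s ≠ 0 := by intro h0; rw [h0] at h; norm_num at h
    unfold U
    refine ContDiffAt.mul ?_ (Real.contDiffAt_log.mpr hs)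
    exact (Real.smoothTransition.contDiff.comp ((contDiff_const.mul contDiff_id).sub contDiff_const)).contDiffAt

lemma U_le {s : ℝ} (hs : 0 ≤ s) : U s ≤ Real.log (1 + s) := by
  rcases le_or_gt 1 s with h | h
  · rw [U_eq h]
    exact Real.log_le_log (by linarith) (by linarith)
  · have h1 : 0 ≤ Real.log (1 + s) := Real.log_nonneg (by linarith)
    have h2 : Real.log s ≤ 0 := Real.log_nonpos hs h.le
    have h3 := Real.smoothTransition.nonneg (2 * s - 1)
    unfold U
    nlinarith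

variable {m : ℕ}
open Helper304Lap

noncomputable def vv (c : ℝ) (x : E (2 * m)) : ℝ := c * U (‖x‖ ^ 2)

lemma vv_smooth (c : ℝ) : ContDiff ℝ ∞ (vv (m := m) c) :=
  contDiff_const.mul (U_smooth.comp (contDiff_norm_sq ℝ))

/-- the iterated Laplacians of the logarithm are multiples of powers of `|x|^{-2}` -/
lemma LL_log (c : ℝ) (j : ℕ) : ∃ C : ℝ, (j + 1 = m → C = 0) ∧ ∀ x : E (2 * m), 1 < ‖x‖ →
    LL (j + 1) (vv c) x = C * (‖x‖ ^ 2)⁻¹ ^ (j + 1) := by
  have hopen : ∀ x : E (2 * m), 1 < ‖x‖ → ∀ᶠ y in 𝓝 x, 1 < ‖y‖ := fun x hx =>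
    continuous_norm.continuousAt.eventually (Ioi_mem_nhds hx)
  induction j with
  | zero =>
    refine ⟨c * (4 * m - 4), fun h => by rw [← h]; norm_num, fun x hx => ?_⟩
    have hs : 1 < ‖x‖ ^ 2 := by nlinarith
    rw [LL_succ]
    change Δ (vv c) x = _
    have h1 : vv c =ᶠ[𝓝 x] fun y : E (2 * m) => (fun s => c * Real.log s) (‖y‖ ^ 2) := by
      filter_upwards [hopen x hx] with y hy
      unfold vv
      rw [U_eq (by nlinarith)]
    rw [(laplacian_congr_nhds h1).self_of_nhds]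
    have h := H314.CS.LL.laplacian_comp_normSq (E := E (2 * m)) (x := x) (U := fun s => c * Real.log s)
      (U' := fun s => c * s⁻¹) (U'' := fun s => c * -(s ^ 2)⁻¹)
      (by
        filter_upwards [Ioi_mem_nhds hs] with s hs'
        have : s ≠ 0 := by have : 1 < s := hs'; linarith
        exact (Real.hasDerivAt_log this).const_mul c)
      ((hasDerivAt_inv (by positivity)).const_mul c)
    rw [h, finrank_euclideanSpace_fin]
    have : ‖x‖ ^ 2 ≠ 0 := by positivity
    push_cast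
    field_simp
    ring
  | succ j ih =>
    obtain ⟨C, -, hC⟩ := ih
    refine ⟨4 * C * (j + 1) * ((j + 1) + 1 - m), fun h => ?_, fun x hx => ?_⟩
    · rw [← h]; push_cast; ring
    · have hs : 1 < ‖x‖ ^ 2 := by nlinarith
      rw [LL_succ]
      have h1 : LL (j + 1) (vv c) =ᶠ[𝓝 x] fun y : E (2 * m) => (fun s => C * s⁻¹ ^ (j + 1)) (‖y‖ ^ 2) := by
        filter_upwards [hopen x hx] with y hy
        exact hC y hy
      rw [(laplacian_congr_nhds h1).self_of_nhds]
      have hder : ∀ (k : ℕ) (s : ℝ), s ≠ 0 → HasDerivAt (fun s : ℝ => s⁻¹ ^ k) (-(k : ℝ) * s⁻¹ ^ (k + 1)) s := by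
        intro k s hs
        have := (hasDerivAt_inv hs).pow k
        refine this.congr_deriv ?_
        rcases Nat.eq_zero_or_pos k with h0 | h0
        · subst h0; simp
        · obtain ⟨l, rfl⟩ : ∃ l, k = l + 1 := ⟨k - 1, by omega⟩
          simp only [Nat.add_sub_cancel]
          rw [pow_succ s⁻¹ (l + 1), pow_succ s⁻¹ l, sq, mul_inv]
          ring
      have h := H314.CS.LL.laplacian_comp_normSq (E := E (2 * m)) (x := x) (U := fun s => C * s⁻¹ ^ (j + 1))
        (U' := fun s => C * (-((j + 1 : ℕ) : ℝ) * s⁻¹ ^ (j + 2)))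
        (U'' := fun s => C * (-((j + 1 : ℕ) : ℝ) * (-((j + 2 : ℕ) : ℝ) * s⁻¹ ^ (j + 3))))
        (by
          filter_upwards [Ioi_mem_nhds hs] with s hs'
          have : s ≠ 0 := by have : 1 < s := hs'; linarith
          exact (hder (j + 1) s this).const_mul C)
        (((hder (j + 2) _ (by positivity)).const_mul _).const_mul C)
      rw [h, finrank_euclideanSpace_fin]
      have h0 : ‖x‖ ^ 2 ≠ 0 := by positivity
      have e : ‖x‖ ^ 2 * (‖x‖ ^ 2)⁻¹ ^ (j + 3) = (‖x‖ ^ 2)⁻¹ ^ (j + 2) := by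
        rw [pow_succ ((‖x‖ ^ 2)⁻¹) (j + 2)]
        field_simp
      push_cast
      linear_combination (4 * C * (j + 1) * (j + 2)) * e

lemma LL_log_zero (hm : 1 ≤ m) (c : ℝ) {x : E (2 * m)} (hx : 1 < ‖x‖) : LL m (vv c) x = 0 := by
  obtain ⟨j, rfl⟩ : ∃ j, m = j + 1 := ⟨m - 1, by omega⟩
  obtain ⟨C, h0, h⟩ := LL_log (m := j + 1) c j
  rw [h x hx, h0 rfl, zero_mul]

end logp

end Pool.Agent.Q175.PH
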